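import Mathlib
import Pool.Prelude.Def_F_c31e40fa
import Pool.Agent.H15.Sep.Final

/-!
# The modulus of local connectivity of the Multibrot sets at small scales

`M_n` is locally connected if and only if its modulus of local connectivity `ω_n(t)` (the least
upper bound, over the pairs `x, y ∈ M_n` with `|x - y| ≤ t`, of the diameters needed to join `x` to
`y` by a connected subset of `M_n`) tends to `0` with `t`.

We show that `ω_n(t) ≥ √(t / n) / 312` for all `n ≥ 2` and `0 < t ≤ 1 / n`.  The main component of
`M_n` and the component of period two are tangent at the parameter `c₀` with a fixed point of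
multiplier `-1`; the points `x`, `y` are taken in the two components, at distance of order `√(t / n)`
from `c₀`, and every connected subset of `M_n` which contains `x` and `y` has `c₀` in its closure.
For these pairs the order `√(t / n)` is exact.

The separation comes from the symmetry: every boundary point of `M_n` on a symmetry axis separates
`M_n` along this axis.
-/

set_option autoImplicit false

open Complex Set Filter Topology Metric

namespace Pool.Agent.Results.MP_fcb70f_an.SquareRootModulus

open N62a1eb23
open Pool.Agent.H15.Sep

/-- The modulus of local connectivity of the Multibrot sets at small scales. For `n ≥ 2` and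
`0 < t ≤ 1 / n` there are `x, y ∈ M_n` with `|x - y| ≤ t` such that every connected subset of `M_n`
containing both has in its closure the boundary point `c₀` at which `z ^ n + c₀` has a fixed point of
multiplier `-1`, and has diameter at least `√(t / n) / 312`. This is the exact order for these pairs:
some continuum in `M_n` containing `x` and `y` has diameter at most `√(t / n)`. -/
theorem result : ∀ n : ℕ, 2 ≤ n → ∀ t : ℝ, 0 < t → t ≤ 1 / n → ∃ c₀ x y : ℂ,
    c₀ ∈ frontier (multibrotSet n) ∧ (∃ z : ℂ, z ^ n + c₀ = z ∧ n * z ^ (n - 1) = -1) ∧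
    x ∈ multibrotSet n ∧ y ∈ multibrotSet n ∧ dist x y ≤ t ∧
    (∀ S ⊆ multibrotSet n, IsConnected S → x ∈ S → y ∈ S →
      c₀ ∈ closure S ∧ √(t / n) / 312 ≤ diam S) ∧
    ∃ S ⊆ multibrotSet n, IsCompact S ∧ IsConnected S ∧ x ∈ S ∧ y ∈ S ∧ diam S ≤ √(t / n) := by
  intro n hn t ht0 ht
  obtain ⟨A, hA⟩ := IsAlgClosed.exists_pow_nat_eq (-1 / (n : ℂ)) (show 0 < n - 1 by omega)
  have hA0 := A_ne hn hA
  have hn0 : (n : ℂ) ≠ 0 := by exact_mod_cast (show n ≠ 0 by omega)
  obtain ⟨x, hx, y, hy, h1, -, h3, h4⟩ := main hn hA ht0 ht
  have hc0 : A * (1 + 1 / n) = A * ((1 + 1 / n : ℝ) : ℂ) := by push_cast; ring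
  refine ⟨A * (1 + 1 / n), x, y, ?_, ⟨A, ?_, ?_⟩, hx, hy, h1,
    fun S hS hSc hxS hyS => h3 S hS hSc.isPreconnected hxS hyS, h4⟩
  · rw [frontier_eq_closure_inter_closure]
    constructor
    · rw [hc0]
      exact subset_closure (root_mem hn hA)
    · have h2 : (multibrotSet n)ᶜ = (fun z => A * z) '' (KK n A)ᶜ := by
        ext g
        simp only [KK, mem_compl_iff, mem_ofPred_eq, mem_image]
        constructor
        · intro hg
          refine ⟨A⁻¹ * g, ?_, by field_simp⟩
          have : A * (A⁻¹ * g) = g := by field_simp
          rwa [this]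
        · rintro ⟨z, hz, rfl⟩
          exact hz
      rw [h2, hc0]
      exact image_closure_subset_closure_image (f := fun z : ℂ => A * z) (by fun_prop)
        (mem_image_of_mem (fun z : ℂ => A * z) (frontier_KK hn hA))
  · have : A ^ n = A ^ (n - 1) * A := by
      rw [← pow_succ]
      congr 1
      omega
    rw [this, hA]
    ring
  · rw [hA]
    field_simp

end Pool.Agent.Results.MP_fcb70f_an.SquareRootModulus
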